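import Pool.Agent.Helper20.RG.St2

/-!
# Project RG, module ER
-/

set_option autoImplicit false

open MeasureTheory Set Filter Topology
open scoped ENNReal RealInnerProductSpace

namespace Pool.Agent.Helper29.RG

open Pool.Agent.Helper20.RG
open Pool.Agent.Helper68.LM (Pl BB Bd Av HL ft fm DQ)

/-- Chebyshev -/
theorem cheb_er (F : Pl → ℝ) (hF : Continuous F) (a : ℝ) (ha : 0 < a) :
    volume {x | a < |F x|} ≤ ENNReal.ofReal ((1 / a) ^ 2) * ∫⁻ x, ‖F x‖ₑ ^ 2 := by
  have hm : AEMeasurable (fun x => ‖F x‖ₑ ^ 2) (volume : Measure Pl) := by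
    have : Measurable (fun x => ‖F x‖ₑ ^ 2) := (hF.measurable.enorm).pow_const 2
    exact this.aemeasurable
  have h1 := mul_meas_ge_le_lintegral₀ hm (ENNReal.ofReal (a ^ 2))
  have hsub : {x | a < |F x|} ⊆ {x | ENNReal.ofReal (a ^ 2) ≤ ‖F x‖ₑ ^ 2} := by
    intro x hx
    simp only [mem_setOf_eq] at hx ⊢
    rw [← ofReal_norm, ← ENNReal.ofReal_pow (norm_nonneg _)]
    refine ENNReal.ofReal_le_ofReal ?_
    rw [Real.norm_eq_abs]
    exact pow_le_pow_left₀ ha.le hx.le 2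
  have h2 : ENNReal.ofReal (a ^ 2) * volume {x | a < |F x|} ≤ ∫⁻ x, ‖F x‖ₑ ^ 2 :=
    (mul_le_mul_right (measure_mono hsub) _).trans h1
  have h3 : ENNReal.ofReal ((1 / a) ^ 2) * ENNReal.ofReal (a ^ 2) = 1 := by
    rw [← ENNReal.ofReal_mul (by positivity), ← mul_pow, one_div, inv_mul_cancel₀ ha.ne', one_pow,
      ENNReal.ofReal_one]
  calc volume {x | a < |F x|} = ENNReal.ofReal ((1 / a) ^ 2) *
        (ENNReal.ofReal (a ^ 2) * volume {x | a < |F x|}) := by
        rw [← mul_assoc, h3, one_mul]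
    _ ≤ _ := mul_le_mul_right h2 _

theorem hER : StER := by
  intro u Cf K A σ s g Zf η b i hFam hCf hA hu hη
  constructor
  · set W := om u (b - 1) (16 * u - i) with hW
    have h1 : ∀ k : ℤ, ∀ j ∈ Finset.range (2 ^ u), volume (Ew Zf u η b i (1 / 4) k j) ≤
        ENNReal.ofReal ((4 / η) ^ 2) * ∫⁻ x, ‖Zf W k j x‖ₑ ^ 2 := by
      intro k j hj
      have hj' := Finset.mem_range.mp hj
      have h := cheb_er (Zf W k j) (hFam.cont W k j hj') (1 / 4 * η) (by positivity)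
      have he : (1 : ℝ) / (1 / 4 * η) = 4 / η := by
        field_simp
      rw [he] at h
      refine (measure_mono ?_).trans h
      intro x hx
      exact hx.1
    calc ∑' k : ℤ, ∑ j ∈ Finset.range (2 ^ u), volume (Ew Zf u η b i (1 / 4) k j)
        ≤ ∑' k : ℤ, ∑ j ∈ Finset.range (2 ^ u),
            ENNReal.ofReal ((4 / η) ^ 2) * ∫⁻ x, ‖Zf W k j x‖ₑ ^ 2 :=
          ENNReal.tsum_le_tsum (fun k => Finset.sum_le_sum (h1 k))
      _ = ENNReal.ofReal ((4 / η) ^ 2) *
            ∑' k : ℤ, ∑ j ∈ Finset.range (2 ^ u), ∫⁻ x, ‖Zf W k j x‖ₑ ^ 2 := by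
          rw [← ENNReal.tsum_mul_left]
          refine tsum_congr (fun k => ?_)
          rw [Finset.mul_sum]
      _ ≤ ENNReal.ofReal ((4 / η) ^ 2) *
            (ENNReal.ofReal (Cf * (K + u + 1)) * ∫⁻ x, ‖g x‖ₑ ^ 2) :=
          mul_le_mul_right (hFam.all W) _
      _ = _ := by
          rw [← mul_assoc, ← ENNReal.ofReal_mul (by positivity)]
  · intro hb T hT
    have hMs : 0 < Ms u := by
      unfold Ms
      have : (0 : ℝ) < u := by exact_mod_cast (by omega : 0 < u)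
      positivity
    set c : ℝ≥0∞ := ENNReal.ofReal ((4 * Ms u / η) ^ 2) with hc
    set W : ℕ := 2 ^ b * (1024 * u ^ 2) with hW
    have hWr : (W : ℝ) = (2 : ℝ) ^ b * (1024 * (u : ℝ) ^ 2) := by
      rw [hW]; push_cast; ring
    have h1 : ∀ k : ℤ, ∀ j ∈ Finset.range (2 ^ u), volume (Ew Zf u η b i (1 / 4) k j) ≤
        ∑ l ∈ Finset.range (16 * u), c * ∫⁻ x, ‖Zf (om u b l) k j x - Zf (om u b (l + 1)) k j x‖ₑ ^ 2 := by
      intro k j hj
      have hj' := Finset.mem_range.mp hj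
      have hsub : Ew Zf u η b i (1 / 4) k j ⊆ ⋃ l ∈ Finset.range (16 * u),
          {x | 1 / 4 * η / Ms u < |Zf (om u b l) k j x - Zf (om u b (l + 1)) k j x|} := by
        intro x hx
        obtain ⟨l, hl, hlt⟩ := hx.2 hb
        rw [mem_iUnion₂]
        exact ⟨l, Finset.mem_range.mpr hl, hlt⟩
      refine (measure_mono hsub).trans ((measure_biUnion_finset_le _ _).trans ?_)
      refine Finset.sum_le_sum (fun l _ => ?_)
      have h := cheb_er (fun x => Zf (om u b l) k j x - Zf (om u b (l + 1)) k j x)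
        ((hFam.cont _ k j hj').sub (hFam.cont _ k j hj')) (1 / 4 * η / Ms u) (by positivity)
      have he : (1 : ℝ) / (1 / 4 * η / Ms u) = 4 * Ms u / η := by
        field_simp
      rw [he] at h
      exact h
    have h2 : ∀ l ∈ Finset.range (16 * u),
        ∑' k : ℤ, ∑ j ∈ Finset.range (2 ^ u),
          ∫⁻ x, ‖Zf (om u b l) k j x - Zf (om u b (l + 1)) k j x‖ₑ ^ 2 ≤
        ENNReal.ofReal (Cf * mu u A σ ((2 : ℝ) ^ b * (1024 * (u : ℝ) ^ 2)) T) * ∫⁻ x, ‖g x‖ₑ ^ 2 := by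
      intro l hl
      have hl' := Finset.mem_range.mp hl
      have h2b : 1 ≤ 2 ^ b := Nat.one_le_two_pow
      have h := hFam.dif W (om u b l) (om u b (l + 1)) T hu ?_ ?_ ?_ ?_ hT
      · rw [hWr] at h
        exact h
      · rw [hW]
        nlinarith [Nat.one_le_two_pow (n := b)]
      · rw [hW]
        unfold om
        exact Nat.mul_le_mul_left _ (Nat.le_add_right _ _)
      · unfold om
        refine Nat.mul_le_mul_left _ ?_
        have : 64 * u * l ≤ 64 * u * (l + 1) := Nat.mul_le_mul_left _ (Nat.le_succ l)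
        omega
      · rw [hW]
        unfold om
        have h3 : 1024 * u ^ 2 + 64 * u * (l + 1) ≤ 2 * (1024 * u ^ 2) := by
          have : 64 * u * (l + 1) ≤ 64 * u * (16 * u) := Nat.mul_le_mul_left _ (by omega)
          nlinarith
        calc 2 ^ b * (1024 * u ^ 2 + 64 * u * (l + 1)) ≤ 2 ^ b * (2 * (1024 * u ^ 2)) :=
              Nat.mul_le_mul_left _ h3
          _ = 2 * (2 ^ b * (1024 * u ^ 2)) := by ring
    have hmu : 0 ≤ Cf * mu u A σ ((2 : ℝ) ^ b * (1024 * (u : ℝ) ^ 2)) T := by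
      unfold mu
      have hT0 : (0 : ℝ) ≤ (T : ℝ) := Nat.cast_nonneg T
      have := Real.rpow_nonneg hT0 (-(1 / σ))
      positivity
    calc ∑' k : ℤ, ∑ j ∈ Finset.range (2 ^ u), volume (Ew Zf u η b i (1 / 4) k j)
        ≤ ∑' k : ℤ, ∑ j ∈ Finset.range (2 ^ u), ∑ l ∈ Finset.range (16 * u),
            c * ∫⁻ x, ‖Zf (om u b l) k j x - Zf (om u b (l + 1)) k j x‖ₑ ^ 2 :=
          ENNReal.tsum_le_tsum (fun k => Finset.sum_le_sum (h1 k))
      _ = ∑' k : ℤ, ∑ l ∈ Finset.range (16 * u), c * ∑ j ∈ Finset.range (2 ^ u),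
            ∫⁻ x, ‖Zf (om u b l) k j x - Zf (om u b (l + 1)) k j x‖ₑ ^ 2 := by
          refine tsum_congr (fun k => ?_)
          rw [Finset.sum_comm]
          exact Finset.sum_congr rfl (fun l _ => by rw [Finset.mul_sum])
      _ = ∑ l ∈ Finset.range (16 * u), ∑' k : ℤ, c * ∑ j ∈ Finset.range (2 ^ u),
            ∫⁻ x, ‖Zf (om u b l) k j x - Zf (om u b (l + 1)) k j x‖ₑ ^ 2 :=
          Summable.tsum_finsetSum (fun l _ => ENNReal.summable)
      _ = ∑ l ∈ Finset.range (16 * u), c * ∑' k : ℤ, ∑ j ∈ Finset.range (2 ^ u),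
            ∫⁻ x, ‖Zf (om u b l) k j x - Zf (om u b (l + 1)) k j x‖ₑ ^ 2 :=
          Finset.sum_congr rfl (fun l _ => ENNReal.tsum_mul_left)
      _ ≤ ∑ l ∈ Finset.range (16 * u), c *
            (ENNReal.ofReal (Cf * mu u A σ ((2 : ℝ) ^ b * (1024 * (u : ℝ) ^ 2)) T) *
              ∫⁻ x, ‖g x‖ₑ ^ 2) :=
          Finset.sum_le_sum (fun l hl => mul_le_mul_right (h2 l hl) _)
      _ = _ := by
          rw [Finset.sum_const, Finset.card_range, nsmul_eq_mul, ← mul_assoc, ← mul_assoc, hc]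
          congr 1
          have hcast : ((16 * u : ℕ) : ℝ≥0∞) = ENNReal.ofReal (16 * (u : ℝ)) := by
            rw [← ENNReal.ofReal_natCast]
            push_cast
            rfl
          rw [hcast, ← ENNReal.ofReal_mul (by positivity), ← ENNReal.ofReal_mul (by positivity)]
          congr 1
          ring

end Pool.Agent.Helper29.RG
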