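import Pool.Agent.Helper20.RG.St1

/-!
# Project RG, module U2
-/

set_option autoImplicit false

open MeasureTheory Set Filter Topology
open scoped ENNReal RealInnerProductSpace

namespace Pool.Agent.Helper29.RG

open Pool.Agent.Helper20.RG
open Pool.Agent.Helper68.LM (Pl BB Bd Av HL ft fm DQ)

theorem hU2 (hMB : StMB) (hU1 : StU1) (hOCT : StOCT) : StU2 := by
  intro C₀ hC₀
  obtain ⟨CM, hCM1, hMB'⟩ := hMB
  obtain ⟨C1, hC1, hU1'⟩ := hU1 C₀ hC₀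
  have hCM0 : 0 < CM := by linarith
  set D : ℝ := 2 * C1 + CM with hD
  have hD0 : 0 < D := by positivity
  refine ⟨8 * D, by positivity, ?_⟩
  intro u s c m m' R K A σ hS ξ ℓ hξ hℓ
  have hℓ0 : 0 < ℓ := by linarith
  have hr : 0 < ‖ξ‖ := norm_pos_iff.mpr hξ
  have h2u : (0 : ℝ) < (2 : ℝ) ^ u := by positivity
  have hcast : ∀ k : ℤ, ∑ j ∈ Finset.range (2 ^ u), ‖Zh (s j) (c j) (m j) (m' j) ℓ ((2 : ℝ) ^ k • ξ)‖ₑ
      = ENNReal.ofReal (∑ j ∈ Finset.range (2 ^ u),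
          ‖Zh (s j) (c j) (m j) (m' j) ℓ ((2 : ℝ) ^ k • ξ)‖) := by
    intro k
    rw [ENNReal.ofReal_sum_of_nonneg (fun j _ => norm_nonneg _)]
    refine Finset.sum_congr rfl (fun j _ => ?_)
    rw [ofReal_norm]
  have hnorm : ∀ k : ℤ, ‖((2 : ℝ) ^ k • ξ)‖ = (2 : ℝ) ^ k * ‖ξ‖ := by
    intro k
    rw [norm_smul, Real.norm_of_nonneg (by positivity)]
  have hne : ∀ k : ℤ, ((2 : ℝ) ^ k • ξ) ≠ 0 := by
    intro k
    exact smul_ne_zero (by positivity) hξ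
  have hpq : (-(u : ℤ)) ≤ (K : ℤ) + u := by
    have : (0 : ℤ) ≤ (K : ℤ) := Int.natCast_nonneg K
    have : (0 : ℤ) ≤ (u : ℤ) := Int.natCast_nonneg u
    omega
  have hmain := hOCT (fun k => ∑ j ∈ Finset.range (2 ^ u),
      ‖Zh (s j) (c j) (m j) (m' j) ℓ ((2 : ℝ) ^ k • ξ)‖ₑ) ‖ξ‖ D (-(u : ℤ)) ((K : ℤ) + u)
      hr hD0.le hpq ?_ ?_ ?_
  · refine hmain.trans (ENNReal.ofReal_le_ofReal ?_)
    have hK : (0 : ℝ) ≤ (K : ℝ) := Nat.cast_nonneg K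
    have hu : (0 : ℝ) ≤ (u : ℝ) := Nat.cast_nonneg u
    push_cast
    nlinarith [mul_nonneg hD0.le hK, mul_nonneg hD0.le hu]
  · intro k
    rw [hcast k]
    refine ENNReal.ofReal_le_ofReal ?_
    refine (hU1' u s c m m' R K A σ hS _ ℓ (hne k) hℓ0).trans ?_
    have h1 : (1 : ℝ) ≤ Real.sqrt ℓ := by
      rw [← Real.sqrt_one]
      exact Real.sqrt_le_sqrt hℓ
    have h2 : 1 / Real.sqrt ℓ ≤ 1 := by
      rw [div_le_one (by linarith)]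
      exact h1
    nlinarith
  · intro k hk
    rw [hcast k]
    refine ENNReal.ofReal_le_ofReal ?_
    have hterm : ∀ j ∈ Finset.range (2 ^ u),
        ‖Zh (s j) (c j) (m j) (m' j) ℓ ((2 : ℝ) ^ k • ξ)‖ ≤ CM * ((2 : ℝ) ^ k * ‖ξ‖) := by
      intro j hj
      have hj' := Finset.mem_range.mp hj
      have h := (hMB' (s j) (c j) (m j) (m' j) ℓ ((2 : ℝ) ^ k • ξ) (hS.slope j hj')
        (hS.mm j hj').1 hℓ0).2.1
      rw [hnorm k] at h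
      refine h.trans ?_
      have h1 : (2 : ℝ) ^ (-(m' j : ℤ)) ≤ 1 := by
        rw [zpow_neg, zpow_natCast]
        exact inv_le_one_of_one_le₀ (one_le_pow₀ (by norm_num))
      have h2 : 0 ≤ (2 : ℝ) ^ k * ‖ξ‖ := by positivity
      have h3 : (2 : ℝ) ^ k * ‖ξ‖ * (2 : ℝ) ^ (-(m' j : ℤ)) ≤ (2 : ℝ) ^ k * ‖ξ‖ :=
        mul_le_of_le_one_right h2 h1
      exact mul_le_mul_of_nonneg_left h3 hCM0.le
    refine (Finset.sum_le_sum hterm).trans ?_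
    rw [Finset.sum_const, Finset.card_range, nsmul_eq_mul]
    have h4 : (2 : ℝ) ^ k * ‖ξ‖ / (2 : ℝ) ^ (-(u : ℤ)) = (2 : ℝ) ^ u * ((2 : ℝ) ^ k * ‖ξ‖) := by
      rw [zpow_neg, zpow_natCast, div_inv_eq_mul]
      ring
    rw [h4]
    push_cast
    have h5 : 0 ≤ (2 : ℝ) ^ u * ((2 : ℝ) ^ k * ‖ξ‖) := by positivity
    have h6 : CM * ((2 : ℝ) ^ u * ((2 : ℝ) ^ k * ‖ξ‖)) ≤ D * ((2 : ℝ) ^ u * ((2 : ℝ) ^ k * ‖ξ‖)) := by
      refine mul_le_mul_of_nonneg_right ?_ h5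
      rw [hD]
      linarith
    calc (2 : ℝ) ^ u * (CM * ((2 : ℝ) ^ k * ‖ξ‖)) = CM * ((2 : ℝ) ^ u * ((2 : ℝ) ^ k * ‖ξ‖)) := by ring
      _ ≤ _ := h6
  · intro k hk
    rw [hcast k]
    refine ENNReal.ofReal_le_ofReal ?_
    have hkr : 0 < (2 : ℝ) ^ k * ‖ξ‖ := by positivity
    have hterm : ∀ j ∈ Finset.range (2 ^ u),
        ‖Zh (s j) (c j) (m j) (m' j) ℓ ((2 : ℝ) ^ k • ξ)‖ ≤ CM * ((2 : ℝ) ^ K / ((2 : ℝ) ^ k * ‖ξ‖)) := by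
      intro j hj
      have hj' := Finset.mem_range.mp hj
      have h := (hMB' (s j) (c j) (m j) (m' j) ℓ ((2 : ℝ) ^ k • ξ) (hS.slope j hj')
        (hS.mm j hj').1 hℓ0).2.2.1
      rw [hnorm k] at h
      have hmK : (2 : ℝ) ^ (m j) ≤ (2 : ℝ) ^ K :=
        pow_le_pow_right₀ (by norm_num) (hS.mm j hj').2
      have h1 : ‖Zh (s j) (c j) (m j) (m' j) ℓ ((2 : ℝ) ^ k • ξ)‖ * ((2 : ℝ) ^ k * ‖ξ‖) ≤
          CM * (2 : ℝ) ^ K := h.trans (mul_le_mul_of_nonneg_left hmK hCM0.le)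
      rw [← mul_div_assoc, le_div_iff₀ hkr]
      exact h1
    refine (Finset.sum_le_sum hterm).trans ?_
    rw [Finset.sum_const, Finset.card_range, nsmul_eq_mul]
    have h4 : (2 : ℝ) ^ ((K : ℤ) + u) = (2 : ℝ) ^ K * (2 : ℝ) ^ u := by
      rw [zpow_add₀ (by norm_num), zpow_natCast, zpow_natCast]
    rw [h4]
    push_cast
    have h5 : 0 ≤ (2 : ℝ) ^ K * (2 : ℝ) ^ u / ((2 : ℝ) ^ k * ‖ξ‖) := by positivity
    have h6 : CM * ((2 : ℝ) ^ K * (2 : ℝ) ^ u / ((2 : ℝ) ^ k * ‖ξ‖)) ≤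
        D * ((2 : ℝ) ^ K * (2 : ℝ) ^ u / ((2 : ℝ) ^ k * ‖ξ‖)) := by
      refine mul_le_mul_of_nonneg_right ?_ h5
      rw [hD]
      linarith
    calc (2 : ℝ) ^ u * (CM * ((2 : ℝ) ^ K / ((2 : ℝ) ^ k * ‖ξ‖)))
        = CM * ((2 : ℝ) ^ K * (2 : ℝ) ^ u / ((2 : ℝ) ^ k * ‖ξ‖)) := by ring
      _ ≤ _ := h6

end Pool.Agent.Helper29.RG
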